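import Pool.Agent.Lib.MP_defcf3_al.BR.StageD
import Pool.Agent.Lib.MP_defcf3_al.BR.H81.Cyclo

/-! D5 (ETA): roots of unity and cyclotomic characters. -/

namespace BR7.H72

universe u

open H81

section char

variable {F Ω : Type u} [Field F] [Field Ω] [Algebra F Ω]

/-- The cyclotomic character modulo `7^n`. -/
noncomputable def cyX (n : ℕ) (g : Ω ≃ₐ[F] Ω) : ZMod (7 ^ n) := L n (kapn n g)

theorem cyX_mul (n : ℕ) (g h : Ω ≃ₐ[F] Ω) : cyX n (g * h) = cyX n g + cyX n h := by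
  unfold cyX
  rw [map_mul, L_mul]

theorem kapn_eq_of_smul [∀ i, HasEnoughRootsOfUnity Ω (7 ^ i)] (n : ℕ) (t : Ωˣ)
    (ht : IsPrimitiveRoot t (7 ^ (n + 1))) (g g' : Ω ≃ₐ[F] Ω) (h : g • t = g' • t) :
    kapn n g = kapn n g' := by
  rw [kapn_spec n g t ht.pow_eq_one, kapn_spec n g' t ht.pow_eq_one] at h
  have h2 := ht.pow_inj (ZMod.val_lt _) (ZMod.val_lt _) h
  exact Units.ext (ZMod.val_injective _ h2)

theorem cyX_lc [IsGalois F Ω] [∀ i, HasEnoughRootsOfUnity Ω (7 ^ i)] (n : ℕ) (t : Ωˣ)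
    (ht : IsPrimitiveRoot t (7 ^ (n + 1))) : IsLocallyConstant (cyX (F := F) (Ω := Ω) n) := by
  refine isLocConst_of_root t _ fun g g' hgg => ?_
  unfold cyX
  rw [kapn_eq_of_smul n t ht g g' hgg]

theorem cyX_compat (n : ℕ) (g : Ω ≃ₐ[F] Ω) :
    ZMod.castHom (pow_dvd_pow 7 (Nat.le_succ n)) (ZMod (7 ^ n)) (cyX (n + 1) g) = cyX n g := by
  refine (L_unique n (kapn n g) _ ?_).symm
  have h1 := L_spec (n + 1) (kapn (n + 1) g)
  obtain ⟨a, ha⟩ : ∃ a, a = L (n + 1) (kapn (n + 1) g) := ⟨_, rfl⟩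
  rw [← ha] at h1
  change e8 n ^ (ZMod.castHom (pow_dvd_pow 7 (Nat.le_succ n)) (ZMod (7 ^ n))
    (L (n + 1) (kapn (n + 1) g))).val = _
  rw [← ha]
  have h2 : (ZMod.castHom (pow_dvd_pow 7 (Nat.le_succ n)) (ZMod (7 ^ n)) a).val =
      a.val % 7 ^ n := by
    rw [ZMod.castHom_apply, ZMod.cast_eq_val, ZMod.val_natCast]
  rw [h2]
  have h3 : e8 n ^ (a.val % 7 ^ n) = e8 n ^ a.val := (e8_pow_eq (n := n)).mpr (Nat.mod_modEq _ _)
  rw [h3]
  apply Units.ext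
  have h4 := congrArg Units.val h1
  have h5 := congrArg (ZMod.castHom (pow_dvd_pow 7
    (Nat.add_le_add_right (Nat.le_add_right n 1) 1)) (ZMod (7 ^ (n + 1)))) h4
  rw [Units.val_pow_eq_pow_val, Units.val_pow_eq_pow_val, map_pow, map_pow, kapn_castHom,
    e8_val] at h5
  rw [Units.val_pow_eq_pow_val, Units.val_pow_eq_pow_val, e8_val, ← h5]
  congr 1
  have h6 : ZMod.castHom (pow_dvd_pow 7 (Nat.add_le_add_right (Nat.le_add_right n 1) 1))
    (ZMod (7 ^ (n + 1))) (8 : ZMod (7 ^ (n + 1 + 1))) = 8 := map_ofNat _ 8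
  exact h6.symm

theorem kapn_one_of [∀ i, HasEnoughRootsOfUnity Ω (7 ^ i)] (ζ : Ωˣ) (hζ : IsPrimitiveRoot ζ 7)
    (n : ℕ) (g : Ω ≃ₐ[F] Ω) (hg : g • ζ = ζ) (h0 : cyX n g = 0) : kapn n g = 1 := by
  have h1 := L_spec n (kapn n g)
  change L n (kapn n g) = 0 at h0
  rw [h0, ZMod.val_zero, pow_zero] at h1
  have h2 : ((kapn 0 g : (ZMod (7 ^ (0 + 1)))ˣ) : ZMod (7 ^ (0 + 1))) = 1 := by
    have h3 := kapn_spec 0 g ζ (by simpa using hζ.pow_eq_one)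
    rw [hg] at h3
    have h4 : ζ ^ 1 = ζ ^ ((kapn 0 g : (ZMod (7 ^ (0 + 1)))ˣ) : ZMod (7 ^ (0 + 1))).val := by
      rw [pow_one]; exact h3
    have h5 := hζ.pow_inj (by norm_num) (by
      have := ZMod.val_lt ((kapn 0 g : (ZMod (7 ^ (0 + 1)))ˣ) : ZMod (7 ^ (0 + 1)))
      simpa using this) h4
    apply ZMod.val_injective
    rw [← h5]
    rfl
  have h3 : ((7 : ℕ) : ℤ_[7]) ∣ ((kap g : ℤ_[7]ˣ) : ℤ_[7]) - 1 := by
    rw [kapn_val] at h2
    have h4 : PadicInt.toZModPow (p := 7) (0 + 1) (((kap g : ℤ_[7]ˣ) : ℤ_[7]) - 1) = 0 := by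
      rw [map_sub, h2, map_one, sub_self]
    have h5 : (((kap g : ℤ_[7]ˣ) : ℤ_[7]) - 1) ∈ RingHom.ker (PadicInt.toZModPow (p := 7) (0 + 1)) :=
      h4
    rw [PadicInt.ker_toZModPow, Ideal.mem_span_singleton] at h5
    simpa using h5
  have h4 := dvd_sub_pow_of_dvd_sub h3 n
  have h5 : kapn n g ^ (7 ^ n) = 1 := by
    apply Units.ext
    rw [Units.val_pow_eq_pow_val, Units.val_one, kapn_val]
    rw [one_pow] at h4
    have h6 : (((kap g : ℤ_[7]ˣ) : ℤ_[7]) ^ 7 ^ n - 1) ∈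
        RingHom.ker (PadicInt.toZModPow (p := 7) (n + 1)) := by
      rw [PadicInt.ker_toZModPow, Ideal.mem_span_singleton]
      exact h4
    have h7' : PadicInt.toZModPow (p := 7) (n + 1) (((kap g : ℤ_[7]ˣ) : ℤ_[7]) ^ 7 ^ n - 1) = 0 := h6
    rw [map_sub, map_pow, map_one, sub_eq_zero] at h7'
    exact h7'
  have h7' : orderOf (kapn n g) ∣ 6 := orderOf_dvd_of_pow_eq_one h1.symm
  have h8 : orderOf (kapn n g) ∣ 7 ^ n := orderOf_dvd_of_pow_eq_one h5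
  have h9 : Nat.Coprime 6 (7 ^ n) := by
    apply Nat.Coprime.pow_right
    norm_num
  rw [← orderOf_eq_one_iff]
  exact Nat.eq_one_of_dvd_coprimes h9 h7' h8

theorem smul_of_kapn_one [∀ i, HasEnoughRootsOfUnity Ω (7 ^ i)] (n : ℕ) (g : Ω ≃ₐ[F] Ω)
    (h : kapn n g = 1) (x : Ωˣ) (hx : x ^ (7 ^ (n + 1)) = 1) : g • x = x := by
  rw [kapn_spec n g x hx, h, Units.val_one]
  have h10 : (1 : ZMod (7 ^ (n + 1))).val = 1 := by
    haveI : Fact (1 < 7 ^ (n + 1)) := ⟨Nat.one_lt_pow (by omega) (by norm_num)⟩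
    exact ZMod.val_one _
  rw [h10, pow_one]

theorem kapn_one_of_smul [∀ i, HasEnoughRootsOfUnity Ω (7 ^ i)] (n : ℕ) (t : Ωˣ)
    (ht : IsPrimitiveRoot t (7 ^ (n + 1))) (g : Ω ≃ₐ[F] Ω) (h : g • t = t) : kapn n g = 1 := by
  have h1 := kapn_eq_of_smul n t ht g 1 (by rw [h, one_smul])
  rw [h1, map_one]

theorem L_one (n : ℕ) : L n 1 = 0 :=
  L_unique n 1 0 (by rw [ZMod.val_zero, pow_zero, one_pow])

end char

theorem exists_rootSys {Ω : Type u} [Field Ω] [IsSepClosed Ω] (ζ : Ωˣ) (hζ : IsPrimitiveRoot ζ 7) :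
    ∃ η : ℕ → Ωˣ, RootSys ζ η := by
  have h7 : ((7 : ℕ) : Ω) ≠ 0 := by
    have := IsPrimitiveRoot.neZero' (R := Ω) (n := 7) (ζ := (ζ : Ω))
      (hζ.map_of_injective Units.coeHom_injective)
    exact this.out
  haveI : NeZero ((7 : ℕ) : Ω) := ⟨h7⟩
  have hroot : ∀ x : Ωˣ, ∃ y : Ωˣ, y ^ 7 = x := by
    intro x
    obtain ⟨y, hy⟩ := IsSepClosed.exists_pow_nat_eq (x : Ω) 7
    have hy0 : y ≠ 0 := by
      rintro rfl
      rw [zero_pow (by norm_num)] at hy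
      exact x.ne_zero hy.symm
    refine ⟨Units.mk0 y hy0, ?_⟩
    apply Units.ext
    rw [Units.val_pow_eq_pow_val, Units.val_mk0, hy]
  choose r hr using hroot
  obtain ⟨η, hη⟩ : ∃ η : ℕ → Ωˣ, η = fun n => r^[n] ζ := ⟨_, rfl⟩
  have h0 : η 0 = ζ := by rw [hη]; rfl
  have hs : ∀ n, η (n + 1) ^ 7 = η n := by
    intro n
    rw [hη]
    change (r^[n + 1] ζ) ^ 7 = r^[n] ζ
    rw [Function.iterate_succ_apply', hr]
  have hpow : ∀ n, η n ^ 7 ^ n = ζ := by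
    intro n
    induction n with
    | zero => rw [pow_zero, pow_one, h0]
    | succ n ih => rw [pow_succ', pow_mul, hs, ih]
  refine ⟨η, h0, fun n => ?_, hs⟩
  have h1 : ¬ η n ^ 7 ^ n = 1 := by
    rw [hpow]
    exact hζ.ne_one (by norm_num)
  have h2 : η n ^ 7 ^ (n + 1) = 1 := by
    rw [pow_succ, pow_mul, hpow, hζ.pow_eq_one]
  haveI : Fact (Nat.Prime 7) := ⟨by norm_num⟩
  rw [← orderOf_eq_prime_pow h1 h2]
  exact IsPrimitiveRoot.orderOf _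

theorem eta : EtaStatement.{u} := by
  intro F Ω _ _ _ _ _ ζ hζ
  have h7 : ((7 : ℕ) : Ω) ≠ 0 := by
    have := IsPrimitiveRoot.neZero' (R := Ω) (n := 7) (ζ := (ζ : Ω))
      (hζ.map_of_injective Units.coeHom_injective)
    exact this.out
  haveI : NeZero ((7 : ℕ) : Ω) := ⟨h7⟩
  haveI henough : ∀ i, HasEnoughRootsOfUnity Ω (7 ^ i) := fun i =>
    IsSepClosed.hasEnoughRootsOfUnity_pow Ω 7 i
  obtain ⟨η, hη⟩ := exists_rootSys ζ hζ
  have hprim := hη.2.1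
  refine ⟨η, fun n g => cyX n g, hη, fun n g h => cyX_mul n g h, fun n => cyX_lc n (η n) (hprim n),
    fun n g => cyX_compat n g, ?_, ?_⟩
  · intro n g
    constructor
    · intro h
      have h1 := kapn_one_of_smul n (η n) (hprim n) g h
      refine ⟨?_, ?_⟩
      · apply smul_of_kapn_one n g h1
        rw [pow_succ', pow_mul, hζ.pow_eq_one, one_pow]
      · change L n (kapn n g) = 0
        rw [h1, L_one]
    · rintro ⟨h1, h2⟩
      exact smul_of_kapn_one n g (kapn_one_of ζ hζ n g h1 h2) _ (hprim n).pow_eq_one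
  · intro n
    haveI hc : IsCyclic (ZMod (7 ^ (n + 1)))ˣ :=
      ZMod.isCyclic_units_of_prime_pow 7 (by norm_num) (by norm_num) (n + 1)
    obtain ⟨⟨_, σ, rfl⟩, hσ⟩ := (inferInstance : IsCyclic (kapn (F := F) (Ω := Ω) n).range).exists_generator
    refine ⟨σ, fun g => ?_⟩
    obtain ⟨z, hz⟩ := hσ ⟨kapn n g, g, rfl⟩
    have hz' : kapn n σ ^ z = kapn n g := congrArg Subtype.val hz
    have hmem : kapn n g ∈ Subgroup.zpowers (kapn n σ) := ⟨z, hz'⟩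
    rw [← mem_powers_iff_mem_zpowers] at hmem
    obtain ⟨i, hi⟩ := hmem
    have hi' : kapn n σ ^ i = kapn n g := hi
    refine ⟨i, ?_⟩
    apply smul_of_kapn_one n _ _ _ (hprim n).pow_eq_one
    rw [map_mul, map_inv, map_pow, hi', inv_mul_cancel]

end BR7.H72
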