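import Pool.Agent.Lib.MP_defcf3_al.BR.StageD

/-! D4 (H90CYC): Hilbert 90 for a cyclic quotient. -/

namespace BR7.H72

universe u

section generic

variable {G A : Type u} [Group G] [CommGroup A] [MulDistribMulAction G A]

/-- The partial norm. -/
def pn (σ : G) (w : A) (i : ℕ) : A := ∏ j ∈ Finset.range i, σ ^ j • w

theorem pn_zero (σ : G) (w : A) : pn σ w 0 = 1 := by simp [pn]

theorem pn_one (σ : G) (w : A) : pn σ w 1 = w := by simp [pn]

theorem pn_add (σ : G) (w : A) (i j : ℕ) : pn σ w (i + j) = pn σ w i * σ ^ i • pn σ w j := by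
  unfold pn
  rw [Finset.prod_range_add, Finset.smul_prod']
  congr 1
  refine Finset.prod_congr rfl fun k _ => ?_
  rw [pow_add, mul_smul]

theorem pn_mul (σ : G) (w : A) (d : ℕ) (hd : pn σ w d = 1) (k i : ℕ) :
    pn σ w (i + d * k) = pn σ w i := by
  induction k with
  | zero => simp
  | succ k ih =>
    have h1 : i + d * (k + 1) = (i + d * k) + d := by ring
    rw [h1, pn_add, hd, smul_one, mul_one, ih]

theorem pn_modEq (σ : G) (w : A) (d : ℕ) (hd : pn σ w d = 1) {i j : ℕ} (h : i ≡ j [MOD d]) :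
    pn σ w i = pn σ w j := by
  rw [← Nat.mod_add_div i d, ← Nat.mod_add_div j d, pn_mul σ w d hd, pn_mul σ w d hd, h]

/-- The class of `σ` generates the quotient. -/
theorem zpow_quot (N : Subgroup G) [N.Normal] (σ : G) (hgen : ∀ g : G, ∃ i : ℕ, (σ ^ i)⁻¹ * g ∈ N) :
    ∀ x : G ⧸ N, ∃ i : ℕ, (QuotientGroup.mk σ : G ⧸ N) ^ i = x := by
  intro x
  induction x using QuotientGroup.induction_on with
  | H g =>
    obtain ⟨i, hi⟩ := hgen g
    refine ⟨i, ?_⟩
    rw [← QuotientGroup.mk_pow]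
    exact QuotientGroup.eq.2 hi

theorem fixed_smul (N : Subgroup G) [N.Normal] (w : A) (hw : ∀ g ∈ N, g • w = w) (τ : G) :
    ∀ g ∈ N, g • (τ • w) = τ • w := by
  intro g hg
  have h1 : g * τ = τ * (τ⁻¹ * g * τ) := by group
  rw [← mul_smul, h1, mul_smul]
  congr 1
  apply hw
  have h2 := (inferInstance : N.Normal).conj_mem g hg τ⁻¹
  rwa [inv_inv] at h2

theorem norm_eq (N : Subgroup G) [N.Normal] [Fintype (G ⧸ N)] (σ : G)
    (hgen : ∀ g : G, ∃ i : ℕ, (σ ^ i)⁻¹ * g ∈ N) (w : A) (hw : ∀ g ∈ N, g • w = w) :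
    ∏ x : G ⧸ N, (Quotient.out x) • w = pn σ w (orderOf (QuotientGroup.mk σ : G ⧸ N)) := by
  classical
  unfold pn
  have hfin : IsOfFinOrder (QuotientGroup.mk σ : G ⧸ N) := isOfFinOrder_of_finite _
  symm
  refine Finset.prod_bij (fun j _ => (QuotientGroup.mk σ : G ⧸ N) ^ j) (fun _ _ => Finset.mem_univ _)
    ?_ ?_ ?_
  · intro i hi j hj hij
    rw [Finset.mem_range] at hi hj
    exact pow_injOn_Iio_orderOf (Set.mem_Iio.2 hi) (Set.mem_Iio.2 hj) hij
  · intro x _
    obtain ⟨i, hi⟩ := zpow_quot N σ hgen x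
    refine ⟨i % orderOf (QuotientGroup.mk σ : G ⧸ N), ?_, ?_⟩
    · rw [Finset.mem_range]
      exact Nat.mod_lt _ hfin.orderOf_pos
    · rw [pow_mod_orderOf, hi]
  · intro j _
    have h1 : (QuotientGroup.mk (Quotient.out ((QuotientGroup.mk σ : G ⧸ N) ^ j)) : G ⧸ N) =
        QuotientGroup.mk (σ ^ j) := by
      rw [QuotientGroup.mk_pow]
      exact Quotient.out_eq _
    have h2 := QuotientGroup.eq.1 h1.symm
    have h3 : Quotient.out ((QuotientGroup.mk σ : G ⧸ N) ^ j) =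
        σ ^ j * ((σ ^ j)⁻¹ * Quotient.out ((QuotientGroup.mk σ : G ⧸ N) ^ j)) := by group
    rw [h3, mul_smul, hw _ h2]

end generic

section top

variable {G A : Type u} [Group G] [TopologicalSpace G] [CommGroup A] [MulDistribMulAction G A]

theorem h1triv_of_top (h : H1Triv (⊤ : Subgroup (⊤ : Subgroup G)) A) : H1Triv G A := by
  intro c hc hcoc
  have hcont : Continuous (fun u : (⊤ : Subgroup (⊤ : Subgroup G)) => ((u : (⊤ : Subgroup G)) : G)) :=
    continuous_subtype_val.comp continuous_subtype_val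
  obtain ⟨a, ha⟩ := h (fun u => c ((u : (⊤ : Subgroup G)) : G)) (hc.comp_continuous hcont)
    (fun g h => hcoc _ _)
  refine ⟨a, fun g => ?_⟩
  exact ha ⟨⟨g, Subgroup.mem_top g⟩, Subgroup.mem_top _⟩

variable [IsTopologicalGroup G]

theorem h90cyc_gen (hH1 : H1Triv G A) (N : Subgroup G) [N.Normal] (hN : IsOpen (N : Set G))
    [Fintype (G ⧸ N)] (σ : G) (hgen : ∀ g : G, ∃ i : ℕ, (σ ^ i)⁻¹ * g ∈ N) (w : A)
    (hw : ∀ g ∈ N, g • w = w) (hnorm : ∏ x : G ⧸ N, (Quotient.out x) • w = 1) :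
    ∃ e : A, (∀ g ∈ N, g • e = e) ∧ w * e = σ • e := by
  classical
  rw [norm_eq N σ hgen w hw] at hnorm
  obtain ⟨d, hd⟩ : ∃ d, d = orderOf (QuotientGroup.mk σ : G ⧸ N) := ⟨_, rfl⟩
  rw [← hd] at hnorm
  have hquot := zpow_quot N σ hgen
  choose e he using hquot
  obtain ⟨c, hc⟩ : ∃ c : G → A, c = fun g => pn σ w (e (QuotientGroup.mk g)) := ⟨_, rfl⟩
  -- the value of `c` may be computed with any exponent
  have hcval : ∀ (g : G) (i : ℕ), (QuotientGroup.mk σ : G ⧸ N) ^ i = QuotientGroup.mk g →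
      c g = pn σ w i := by
    intro g i hi
    rw [hc]
    apply pn_modEq σ w d hnorm
    rw [hd]
    exact pow_eq_pow_iff_modEq.1 ((he _).trans hi.symm)
  have hfix : ∀ g : G, ∀ n ∈ N, n • c g = c g := by
    intro g n hn
    rw [hc]
    simp only [pn]
    rw [Finset.smul_prod']
    exact Finset.prod_congr rfl fun j _ => fixed_smul N w hw _ n hn
  have hcoc : ∀ g h, c (g * h) = c g * (g • c h) := by
    intro g h
    have h1 : (QuotientGroup.mk σ : G ⧸ N) ^ (e (QuotientGroup.mk g) + e (QuotientGroup.mk h)) =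
        QuotientGroup.mk (g * h) := by
      rw [pow_add, he, he, QuotientGroup.mk_mul]
    rw [hcval (g * h) _ h1, pn_add]
    have h2 : c g = pn σ w (e (QuotientGroup.mk g)) := hcval g _ (he _)
    have h3 : c h = pn σ w (e (QuotientGroup.mk h)) := hcval h _ (he _)
    rw [h2]
    congr 1
    rw [← h3]
    have h4 : (σ ^ e (QuotientGroup.mk g : G ⧸ N))⁻¹ * g ∈ N := by
      apply QuotientGroup.eq.1
      rw [QuotientGroup.mk_pow]
      exact he _
    have h5 : g = σ ^ e (QuotientGroup.mk g : G ⧸ N) * ((σ ^ e (QuotientGroup.mk g : G ⧸ N))⁻¹ * g) := by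
      group
    conv_rhs => rw [h5, mul_smul, hfix h _ h4]
  have hlc : IsLocallyConstant c := by
    rw [IsLocallyConstant.iff_exists_open]
    intro g
    refine ⟨(fun g' => g⁻¹ * g') ⁻¹' (N : Set G), hN.preimage (continuous_const.mul continuous_id),
      by simp, ?_⟩
    intro g' hg'
    have h1 : (QuotientGroup.mk g : G ⧸ N) = QuotientGroup.mk g' := QuotientGroup.eq.2 hg'
    rw [hc]
    simp only [h1]
  obtain ⟨a, ha⟩ := hH1 c hlc hcoc
  refine ⟨a, ?_, ?_⟩
  · intro g hg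
    have h1 : c g = 1 := by
      rw [hcval g 0 (by
        rw [pow_zero]
        exact ((QuotientGroup.eq_one_iff g).2 hg).symm), pn_zero]
    have h2 := ha g
    rw [h1] at h2
    exact (mul_inv_eq_one.1 h2.symm)
  · have h1 : c σ = w := by
      rw [hcval σ 1 (pow_one _), pn_one]
    have h2 := ha σ
    rw [h1] at h2
    rw [h2, inv_mul_cancel_right]

end top

theorem h90cyc (hH90 : H90Statement.{u}) : H90CycStatement.{u} := by
  intro F Ω _ _ _ _ N hNn hN _ σ hgen w hw hnorm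
  haveI := hNn
  have h1 : H1Triv (Ω ≃ₐ[F] Ω) Ωˣ := h1triv_of_top (hH90 F Ω ⊤ isOpen_univ ⊤ isOpen_univ)
  exact h90cyc_gen h1 N hN σ hgen w hw hnorm

end BR7.H72
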